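import Pool.Agent.H41.CO.Defs

set_option autoImplicit false

/-!
# Merging the cycles of a permutation (`S_MERGE`)
-/

namespace Pool.Agent.H53.CO

open Equiv

section
variable {V : Type} [Fintype V] [DecidableEq V]

omit [Fintype V] in
theorem mul_swap_apply {τ : Perm V} {r s x : V} (hr : x ≠ r) (hs : x ≠ s) :
    (τ * swap r s) x = τ x := by
  rw [Perm.mul_apply, swap_apply_of_ne_of_ne hr hs]

theorem same_rs {τ : Perm V} {r s : V} (h : ¬ τ.SameCycle r s) :
    (τ * swap r s).SameCycle r s := by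
  by_contra hc
  have key : ∀ n : ℕ, ((τ * swap r s) ^ (n + 1)) r = (τ ^ (n + 1)) s := by
    intro n
    induction n with
    | zero =>
      rw [zero_add, pow_one, pow_one, Perm.mul_apply, swap_apply_left]
    | succ n ih =>
      rw [pow_succ' _ (n + 1), Perm.mul_apply, ih, pow_succ' τ (n + 1), Perm.mul_apply]
      refine mul_swap_apply ?_ ?_
      · intro e
        exact h (Perm.SameCycle.symm ⟨((n + 1 : ℕ) : ℤ), by rw [zpow_natCast]; exact e⟩)
      · intro e
        exact hc ⟨((n + 1 : ℕ) : ℤ), by rw [zpow_natCast, ih]; exact e⟩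
  obtain ⟨n, hn⟩ : ∃ n, orderOf τ = n + 1 := ⟨orderOf τ - 1, by have := orderOf_pos τ; omega⟩
  have h1 := key n
  rw [← hn, pow_orderOf_eq_one, Perm.one_apply] at h1
  exact hc ⟨(orderOf τ : ℤ), by rw [zpow_natCast]; exact h1⟩

theorem same_step {τ : Perm V} {r s : V} (h : ¬ τ.SameCycle r s) (a : V) :
    (τ * swap r s).SameCycle a (τ a) := by
  by_cases hr : a = r
  · subst hr
    have h1 : (τ * swap a s) s = τ a := by rw [Perm.mul_apply, swap_apply_right]
    rw [← h1]
    exact (same_rs h).trans ⟨1, by rw [zpow_one]⟩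
  · by_cases hs : a = s
    · subst hs
      have h1 : (τ * swap r a) r = τ a := by rw [Perm.mul_apply, swap_apply_left]
      rw [← h1]
      exact (same_rs h).symm.trans ⟨1, by rw [zpow_one]⟩
    · rw [← mul_swap_apply (τ := τ) hr hs]
      exact ⟨1, by rw [zpow_one]⟩

theorem same_mono {τ : Perm V} {r s : V} (h : ¬ τ.SameCycle r s) {a b : V}
    (hab : τ.SameCycle a b) : (τ * swap r s).SameCycle a b := by
  obtain ⟨n, hn⟩ := hab.exists_nat_pow_eq
  rw [← hn]
  clear hn hab
  induction n with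
  | zero => rw [pow_zero]; exact Perm.SameCycle.refl _ _
  | succ n ih =>
    rw [pow_succ', Perm.mul_apply]
    exact ih.trans (same_step h _)

theorem meets {τ : Perm V} {R : Finset V} {r s : V} (hr : r ∈ R) (hs : s ∈ R)
    (h : ∀ x, τ x ≠ x → ∃ y ∈ R, τ.SameCycle x y) (hrs : ¬ τ.SameCycle r s) :
    ∀ x, (τ * swap r s) x ≠ x → ∃ y ∈ R, (τ * swap r s).SameCycle x y := by
  intro x hx
  by_cases h1 : x = r
  · exact ⟨r, hr, by rw [h1]⟩
  · by_cases h2 : x = s
    · exact ⟨s, hs, by rw [h2]⟩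
    · rw [mul_swap_apply h1 h2] at hx
      obtain ⟨y, hy, hxy⟩ := h x hx
      exact ⟨y, hy, same_mono hrs hxy⟩

theorem merge_aux (τ₀ : Perm V) (R : Finset V) : ∀ (m : ℕ) (τ : Perm V),
    {p : V × V | ¬ τ.SameCycle p.1 p.2}.ncard ≤ m → (∀ x, x ∉ R → τ x = τ₀ x) →
    (∀ x, τ x ≠ x → ∃ y ∈ R, τ.SameCycle x y) →
    ∃ σ : Perm V, Pool.Agent.H41.CO.OneCyc σ ∧ ∀ x, x ∉ R → σ x = τ₀ x := by
  intro m
  induction m with
  | zero =>
    intro τ hm h1 h2
    refine ⟨τ, fun x y _ _ => ?_, h1⟩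
    by_contra hc
    have hz : {p : V × V | ¬ τ.SameCycle p.1 p.2}.ncard = 0 := by omega
    rw [Set.ncard_eq_zero (Set.toFinite _)] at hz
    have : (x, y) ∈ ({p : V × V | ¬ τ.SameCycle p.1 p.2} : Set (V × V)) := hc
    rw [hz] at this
    exact this
  | succ m ih =>
    intro τ hm h1 h2
    by_cases ho : Pool.Agent.H41.CO.OneCyc τ
    · exact ⟨τ, ho, h1⟩
    · unfold Pool.Agent.H41.CO.OneCyc at ho
      push Not at ho
      obtain ⟨x, y, hx, hy, hxy⟩ := ho
      obtain ⟨r, hr, hxr⟩ := h2 x hx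
      obtain ⟨s, hs, hys⟩ := h2 y hy
      have hrs : ¬ τ.SameCycle r s := fun hc => hxy ((hxr.trans hc).trans hys.symm)
      refine ih (τ * swap r s) ?_ ?_ (meets hr hs h2 hrs)
      · have hlt : {p : V × V | ¬ (τ * swap r s).SameCycle p.1 p.2}.ncard <
            {p : V × V | ¬ τ.SameCycle p.1 p.2}.ncard := by
          refine Set.ncard_lt_ncard ?_ (Set.toFinite _)
          refine ⟨fun p hp hc => hp (same_mono hrs hc), fun hsub => ?_⟩
          have : (r, s) ∈ ({p : V × V | ¬ (τ * swap r s).SameCycle p.1 p.2} : Set (V × V)) :=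
            hsub hrs
          exact this (same_rs hrs)
        omega
      · intro z hz
        have z1 : z ≠ r := fun e => hz (by rw [e]; exact hr)
        have z2 : z ≠ s := fun e => hz (by rw [e]; exact hs)
        rw [mul_swap_apply z1 z2]
        exact h1 z hz

end

theorem merge : Pool.Agent.H41.CO.S_MERGE := by
  intro V _ _ τ R h
  exact merge_aux τ R _ τ le_rfl (fun _ _ => rfl) h

end Pool.Agent.H53.CO
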